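import Pool.Agent.Helper2.SV.GoalsP
import Pool.Agent.Helper2.SV.GoalsF

set_option autoImplicit false

namespace Pool.Agent.Helper96.SV

open Pool.Agent.Helper2.SV

theorem goalS3 (hMI : G_MI) (hS2 : G_S2) : G_S3 := by
  intro V _ G Q hF hQ
  obtain ⟨-, -, -, hco, htwo⟩ := hMI.2 V G Q hQ
  -- two non-adjacent vertices of Q
  have hnc : ∃ q ∈ Q, ∃ q' ∈ Q, q ≠ q' ∧ ¬ G.Adj q q' := by
    by_contra hcon
    push Not at hcon
    exact htwo Q ∅ (fun x hx y hy hxy => hcon x hx y hy hxy) (clq_empty G) (by simp)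
  obtain ⟨q0, hq0, q0', hq0', hne0, hna0⟩ := hnc
  have hYQ : ∀ y ∈ Ys G Q, ∀ q ∈ Q, q ≠ y := by
    rintro y hy q hq rfl
    exact hy.1 hq
  have hYa : ∀ y ∈ Ys G Q, ∀ q ∈ Q, ¬ G.Adj q y := fun y hy q hq h => hy.2 q hq h.symm
  have hXY : ∀ x ∈ Xs G Q, ∀ y ∈ Ys G Q, y ≠ x := by
    rintro x hx y hy rfl
    exact hy.2 q0 hq0 (hx.2 q0 hq0)
  have hXZ : ∀ x ∈ Xs G Q, ∀ z ∈ Zs G Q, z ≠ x := by
    rintro x hx z hz rfl
    obtain ⟨-, -, q, hq, hzq⟩ := hz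
    exact hzq (hx.2 q hq)
  have hYZ : ∀ y ∈ Ys G Q, ∀ z ∈ Zs G Q, y ≠ z := by
    rintro y hy z hz rfl
    obtain ⟨-, ⟨q, hq, hzq⟩, -⟩ := hz
    exact hy.2 q hq hzq
  have hA : ∀ x ∈ Xs G Q, ∀ y ∈ Ys G Q, ∀ y' ∈ Ys G Q, G.Adj x y → G.Adj y y' →
      G.Adj x y' := by
    intro x hx y hy y' hy' hxy hyy'
    rcases hF x q0 q0' y y' (hx.2 _ hq0) (hx.2 _ hq0') hxy hyy' hne0 (hYQ y hy _ hq0)
      (hYQ y hy _ hq0') (hXY x hx y' hy') with h | h | h | h | h | h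
    · exact absurd h hna0
    · exact absurd h (hYa y hy _ hq0)
    · exact absurd h (hYa y hy _ hq0')
    · exact h
    · exact absurd h (hYa y' hy' _ hq0)
    · exact absurd h (hYa y' hy' _ hq0')
  have hB : ∀ x ∈ Xp G Q, ∀ z ∈ Zs G Q, G.Adj x z := by
    rintro x ⟨hx, y, hy, hxy⟩ z hz
    by_cases hyz : G.Adj y z
    · obtain ⟨-, q, hq, q', hq', hne, hna, hzq, hzq'⟩ := hS2 V G Q hF hQ y hy z hz hyz
      rcases hF x q q' y z (hx.2 _ hq) (hx.2 _ hq') hxy hyz hne (hYQ y hy _ hq)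
        (hYQ y hy _ hq') (hXZ x hx z hz) with h | h | h | h | h | h
      · exact absurd h hna
      · exact absurd h (hYa y hy _ hq)
      · exact absurd h (hYa y hy _ hq')
      · exact h
      · exact absurd h.symm hzq
      · exact absurd h.symm hzq'
    · obtain ⟨hzQ, ⟨a, ha, hza⟩, b, hb, hzb⟩ := hz
      obtain ⟨s, hs, q, hq, hqP, hsq⟩ := hco {q | q ∈ Q ∧ G.Adj z q} (fun q hq => hq.1)
        ⟨a, ha, hza⟩ (fun h => hzb (by
          have : b ∈ {q | q ∈ Q ∧ G.Adj z q} := by rw [h]; exact hb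
          exact this.2))
      have hzq : ¬ G.Adj z q := fun h => hqP ⟨hq, h⟩
      have hz : z ∈ Zs G Q := ⟨hzQ, ⟨a, ha, hza⟩, b, hb, hzb⟩
      have hqs : q ≠ s := by
        rintro rfl
        exact hqP hs
      rcases hF x y q s z hxy (hx.2 _ hq) (hx.2 _ hs.1) hs.2.symm (hYQ y hy _ hq).symm
        (hYQ y hy _ hs.1).symm hqs (hXZ x hx z hz) with h | h | h | h | h | h
      · exact absurd h (hy.2 q hq)
      · exact absurd h (hy.2 s hs.1)
      · exact absurd h.symm hsq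
      · exact h
      · exact absurd h hyz
      · exact absurd h.symm hzq
  refine ⟨hA, hB, ?_⟩
  rintro x hxp k hk z hz hzk
  by_contra hxk
  obtain ⟨hx, y, hy, hxy⟩ := hxp
  have hyk : ¬ G.Adj y k := fun h => hxk (hA x hx y hy k hk hxy h)
  have hxz : G.Adj x z := hB x ⟨hx, y, hy, hxy⟩ z hz
  have hzQ : ∀ q ∈ Q, q ≠ z := by
    rintro q hq rfl
    exact hz.1 hq
  by_cases hzy : G.Adj z y
  · obtain ⟨-, q, hq, q', hq', hne, hna, hzq, hzq'⟩ := hS2 V G Q hF hQ y hy z hz hzy.symm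
    rcases hF x q q' z k (hx.2 _ hq) (hx.2 _ hq') hxz hzk hne (hzQ _ hq)
      (hzQ _ hq') (hXY x hx k hk) with h | h | h | h | h | h
    · exact hna h
    · exact hzq h.symm
    · exact hzq' h.symm
    · exact hxk h
    · exact hYa k hk _ hq h
    · exact hYa k hk _ hq' h
  · obtain ⟨q, hq, hzq⟩ := hz.2.2
    rcases hF x y q z k hxy (hx.2 _ hq) hxz hzk (hYQ y hy _ hq).symm (hYZ y hy z hz)
      (hzQ _ hq) (hXY x hx k hk) with h | h | h | h | h | h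
    · exact hy.2 q hq h
    · exact hzy h.symm
    · exact hzq h.symm
    · exact hxk h
    · exact hyk h
    · exact hYa k hk _ hq h

end Pool.Agent.Helper96.SV
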