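import Pool.Agent.Helper18.SV.Goals

open Finset
open scoped Pointwise

namespace Pool.Agent.Helper96.SV

open Pool.Agent.Helper95.SF Pool.Agent.Helper18.SV

universe u

lemma mem_nsum_prog {G : Type u} [AddCommGroup G] [DecidableEq G] (x y : G) (c : ℕ) (hc : 1 ≤ c)
    (h : ℕ) (z : G) :
    z ∈ nsum (prog x y c) h ↔ ∃ i : ℕ, i ≤ h * (c - 1) ∧ z = h • x + i • y := by
  induction h generalizing z with
  | zero =>
    rw [nsum_zero, Finset.mem_singleton]
    constructor
    · rintro rfl
      exact ⟨0, by simp, by simp⟩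
    · rintro ⟨i, hi, rfl⟩
      have : i = 0 := by simpa using hi
      simp [this]
  | succ h ih =>
    rw [nsum_succ, Finset.mem_add]
    constructor
    · rintro ⟨u, hu, a, ha, rfl⟩
      obtain ⟨i, hi, rfl⟩ := (ih u).1 hu
      unfold prog at ha
      rw [Finset.mem_image] at ha
      obtain ⟨j, hj, rfl⟩ := ha
      rw [Finset.mem_range] at hj
      refine ⟨i + j, ?_, ?_⟩
      · have : j ≤ c - 1 := by omega
        calc i + j ≤ h * (c - 1) + (c - 1) := by omega
          _ = (h + 1) * (c - 1) := by ring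
      · rw [add_smul, add_smul, one_smul]; abel
    · rintro ⟨i, hi, rfl⟩
      have e1 : (h + 1) * (c - 1) = h * (c - 1) + (c - 1) := by ring
      rw [e1] at hi
      refine ⟨h • x + (i - min i (c - 1)) • y, (ih _).2 ⟨i - min i (c - 1), ?_, rfl⟩,
        x + (min i (c - 1)) • y, ?_, ?_⟩
      · rcases le_total i (c - 1) with h1 | h1
        · rw [min_eq_left h1]; omega
        · rw [min_eq_right h1]; omega
      · unfold prog
        rw [Finset.mem_image]
        refine ⟨min i (c - 1), ?_, rfl⟩
        rw [Finset.mem_range]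
        have := min_le_right i (c - 1)
        omega
      · have h2 : i • y = (i - min i (c - 1)) • y + (min i (c - 1)) • y := by
          rw [← add_smul]
          congr 1
          have := min_le_left i (c - 1)
          omega
        rw [h2, add_smul, one_smul]; abel

theorem t : G_CRIT.{u} := by
  intro G _ _ s c x y hc
  have hc' : ((c - 1 : ℕ) : ℤ) = (c : ℤ) - 1 := by omega
  have key : ∀ (p q : ℕ), q < p → p ≤ s → ∀ z : G, z ∈ nsum (prog x y c) p →
      z ∈ nsum (prog x y c) q →
      ∃ e : ℕ, 1 ≤ e ∧ e ≤ s ∧ ∃ i : ℤ, -((s : ℤ) * (c - 1)) ≤ i ∧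
        i ≤ ((s : ℤ) - e) * (c - 1) ∧ e • x = i • y := by
    intro p q hqp hps z h1 h2
    obtain ⟨i, hi, e1⟩ := (mem_nsum_prog x y c hc p z).1 h1
    obtain ⟨j, hj, e2⟩ := (mem_nsum_prog x y c hc q z).1 h2
    refine ⟨p - q, by omega, by omega, (j : ℤ) - i, ?_, ?_, ?_⟩
    · have h3 : (i : ℤ) ≤ (p : ℤ) * ((c : ℤ) - 1) := by
        rw [← hc']; exact_mod_cast hi
      have h4 : (p : ℤ) * ((c : ℤ) - 1) ≤ (s : ℤ) * ((c : ℤ) - 1) := by
        apply mul_le_mul_of_nonneg_right
        · exact_mod_cast hps
        · omega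
      have h5 : (0 : ℤ) ≤ j := Int.natCast_nonneg j
      linarith
    · have h3 : (j : ℤ) ≤ (q : ℤ) * ((c : ℤ) - 1) := by
        rw [← hc']; exact_mod_cast hj
      have h4 : (q : ℤ) * ((c : ℤ) - 1) ≤ ((s : ℤ) - ((p - q : ℕ) : ℤ)) * ((c : ℤ) - 1) := by
        apply mul_le_mul_of_nonneg_right
        · omega
        · omega
      have h5 : (0 : ℤ) ≤ i := Int.natCast_nonneg i
      linarith
    · have e3 : p • x + i • y = q • x + j • y := e1.symm.trans e2
      have e4 : p • x = q • x + (p - q) • x := by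
        rw [← add_smul]; congr 1; omega
      rw [e4] at e3
      rw [sub_smul, natCast_zsmul, natCast_zsmul]
      have e5 : q • x + ((p - q) • x + i • y) = q • x + j • y := by rw [← add_assoc]; exact e3
      have e6 := add_left_cancel e5
      rw [← e6]; abel
  constructor
  · intro hS e he1 hes i hi1 hi2 heq
    have hd := hS s (s - e) le_rfl (by omega) (by omega)
    rw [Finset.disjoint_left] at hd
    refine hd (a := s • x + (-i).toNat • y) ((mem_nsum_prog x y c hc s _).2 ⟨_, ?_, rfl⟩)
      ((mem_nsum_prog x y c hc (s - e) _).2 ⟨i.toNat, ?_, ?_⟩)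
    · have h1 : ((-i).toNat : ℤ) ≤ ((s * (c - 1) : ℕ) : ℤ) := by
        push_cast
        rw [hc', Int.toNat_eq_max]
        apply max_le
        · linarith
        · apply mul_nonneg
          · exact Int.natCast_nonneg s
          · omega
      exact_mod_cast h1
    · have h1 : ((i).toNat : ℤ) ≤ (((s - e) * (c - 1) : ℕ) : ℤ) := by
        push_cast
        rw [hc', Int.toNat_eq_max, Nat.cast_sub hes]
        apply max_le
        · exact hi2
        · apply mul_nonneg
          · omega
          · omega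
      exact_mod_cast h1
    · have e4 : s • x = (s - e) • x + e • x := by
        rw [← add_smul]; congr 1; omega
      rw [e4, heq]
      have e5 : ((i.toNat : ℤ) - ((-i).toNat : ℤ)) = i := by
        rw [Int.toNat_eq_max, Int.toNat_eq_max]; omega
      have e6 : i • y = (i.toNat : ℤ) • y - ((-i).toNat : ℤ) • y := by
        rw [← sub_smul, e5]
      rw [e6, natCast_zsmul, natCast_zsmul]; abel
  · intro h p q hp hq hne
    rw [Finset.disjoint_left]
    intro z hz1 hz2
    rcases lt_or_gt_of_ne hne with h1 | h1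
    · obtain ⟨e, he1, hes, i, hi1, hi2, heq⟩ := key q p h1 hq z hz2 hz1
      exact h e he1 hes i hi1 hi2 heq
    · obtain ⟨e, he1, hes, i, hi1, hi2, heq⟩ := key p q h1 hp z hz1 hz2
      exact h e he1 hes i hi1 hi2 heq

end Pool.Agent.Helper96.SV
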